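import Mathlib

set_option autoImplicit false

/-!
Walks all of whose short windows are good: abstract part, for late windows.
-/

namespace Pool.Agent.Run7.h783.RecSeq

section gen

variable {α : Type} [DecidableEq α] (P : Finset α → Prop)

/-- all nonempty windows of length at most `k` of `l` are good -/
def Win (k : ℕ) (l : List α) : Prop :=
  ∀ s : List α, s <:+: l → s ≠ [] → s.length ≤ k → P s.toFinset

/-- an infinite set all of whose nonempty subsets with at most `k` elements are good -/
def Cl (k : ℕ) (C : Set α) : Prop :=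
  C.Infinite ∧ ∀ W : Finset α, W.Nonempty → W.card ≤ k → (∀ x ∈ W, x ∈ C) → P W

/-- a walk in `S` with good windows of length at most `k`, the first `k` terms in `C` and the last `k`
terms in `D`, which avoids `F` -/
structure Seg (k : ℕ) (S C D : Set α) (F : Finset α) (l : List α) : Prop where
  nodup : l.Nodup
  len : k ≤ l.length
  sub : ∀ x ∈ l, x ∈ S
  av : ∀ x ∈ l, x ∉ F
  head : ∀ x ∈ l.take k, x ∈ C
  last : ∀ x ∈ l.drop (l.length - k), x ∈ D
  win : Win P k l

variable {P}

theorem Cl.mono {k k' : ℕ} {C : Set α} (h : Cl P k' C) (hk : k ≤ k') : Cl P k C :=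
  ⟨h.1, fun W hW hc hx => h.2 W hW (hc.trans hk) hx⟩

theorem Seg.mono {k k' : ℕ} {S S' C C' D D' : Set α} {F F' : Finset α} {l : List α}
    (h : Seg P k' S C D F' l) (hk : k ≤ k') (hS : S ⊆ S') (hC : C ⊆ C') (hD : D ⊆ D') (hF : F ⊆ F') :
    Seg P k S' C' D' F l where
  nodup := h.nodup
  len := hk.trans h.len
  sub := fun x hx => hS (h.sub x hx)
  av := fun x hx hxF => h.av x hx (hF hxF)
  head := fun x hx => hC (h.head x (List.take_subset_take_left l hk hx))
  last := fun x hx => by
    refine hD (h.last x ?_)
    have h1 : l.length - k' ≤ l.length - k := by omega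
    exact (List.drop_sublist_drop_left l h1).subset hx
  win := fun s hs hne hlen => h.win s hs hne (hlen.trans hk)

theorem Seg.reverse {k : ℕ} {S C D : Set α} {F : Finset α} {l : List α}
    (h : Seg P k S C D F l) : Seg P k S D C F l.reverse where
  nodup := List.nodup_reverse.2 h.nodup
  len := by rw [List.length_reverse]; exact h.len
  sub := fun x hx => h.sub x (List.mem_reverse.1 hx)
  av := fun x hx => h.av x (List.mem_reverse.1 hx)
  head := fun x hx => by
    rw [List.take_reverse] at hx
    exact h.last x (List.mem_reverse.1 hx)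
  last := fun x hx => by
    rw [List.length_reverse, List.drop_reverse] at hx
    have h1 : l.length - (l.length - k) = k := by have := h.len; omega
    rw [h1] at hx
    exact h.head x (List.mem_reverse.1 hx)
  win := fun s hs hne hlen => by
    have h1 := h.win s.reverse (by rw [← List.reverse_infix, List.reverse_reverse]; exact hs)
      (by simpa using hne) (by simpa using hlen)
    rwa [List.toFinset_reverse] at h1

theorem Seg.append {k : ℕ} {S C D E : Set α} {F : Finset α} {l₁ l₂ : List α} (hD : Cl P k D)
    (h₁ : Seg P k S C D F l₁) (h₂ : Seg P k S D E (F ∪ l₁.toFinset) l₂) :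
    Seg P k S C E F (l₁ ++ l₂) where
  nodup := by
    rw [List.nodup_append]
    refine ⟨h₁.nodup, h₂.nodup, fun a ha b hb hab => ?_⟩
    subst hab
    exact h₂.av a hb (Finset.mem_union_right _ (List.mem_toFinset.2 ha))
  len := by
    rw [List.length_append]
    exact h₁.len.trans (Nat.le_add_right _ _)
  sub := fun x hx => by
    rcases List.mem_append.1 hx with h | h
    · exact h₁.sub x h
    · exact h₂.sub x h
  av := fun x hx => by
    rcases List.mem_append.1 hx with h | h
    · exact h₁.av x h
    · exact fun hF => h₂.av x h (Finset.mem_union_left _ hF)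
  head := fun x hx => by
    rw [List.take_append_of_le_length h₁.len] at hx
    exact h₁.head x hx
  last := fun x hx => by
    have h1 : (l₁ ++ l₂).length - k = l₁.length + (l₂.length - k) := by
      rw [List.length_append]
      have := h₂.len
      omega
    rw [h1, List.drop_append, List.drop_eq_nil_of_le (by omega), List.nil_append] at hx
    have h2 : l₁.length + (l₂.length - k) - l₁.length = l₂.length - k := by omega
    rw [h2] at hx
    exact h₂.last x hx
  win := fun s hs hne hlen => by
    obtain ⟨a, b, hab⟩ := hs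
    rw [List.append_assoc, List.append_eq_append_iff] at hab
    rcases hab with ⟨a', h1, h2⟩ | ⟨c', h1, h2⟩
    · -- `l₁ = a ++ a'`, `s ++ b = a' ++ l₂`
      rw [List.append_eq_append_iff] at h2
      rcases h2 with ⟨a'', h3, h4⟩ | ⟨c'', h3, h4⟩
      · exact h₁.win s ⟨a, a'', by rw [h1, h3, List.append_assoc]⟩ hne hlen
      · -- `s = a' ++ c''`, `l₂ = c'' ++ b`
        refine hD.2 _ (by
          rw [Finset.nonempty_iff_ne_empty]
          exact fun h => hne (List.toFinset_eq_empty_iff s |>.1 h))
          ((List.toFinset_card_le s).trans hlen) ?_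
        intro x hx
        rw [List.mem_toFinset, h3] at hx
        have hl : a'.length + c''.length ≤ k := by
          rw [← List.length_append, ← h3]; exact hlen
        rcases List.mem_append.1 hx with hx | hx
        · have h5 : a' = l₁.drop a.length := by rw [h1]; simp
          have h6 : l₁.length - k ≤ a.length := by
            rw [h1, List.length_append]; omega
          refine h₁.last x ?_
          rw [h5] at hx
          exact (List.drop_sublist_drop_left l₁ h6).subset hx
        · have h5 : c'' = l₂.take c''.length := by rw [h4]; simp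
          refine h₂.head x ?_
          rw [h5] at hx
          exact List.take_subset_take_left l₂ (by omega) hx
    · exact h₂.win s ⟨c', b, by rw [h2, List.append_assoc]⟩ hne hlen

/-- `C` and `D` are connected in `S` by walks with good windows of length `k` -/
def Conn (P : Finset α → Prop) (k : ℕ) (S C D : Set α) : Prop :=
  ∀ F : Finset α, ∃ l, Seg P k S C D F l

theorem Conn.symm {k : ℕ} {S C D : Set α} (h : Conn P k S C D) : Conn P k S D C := fun F => by
  obtain ⟨l, hl⟩ := h F
  exact ⟨_, hl.reverse⟩

theorem Conn.trans {k : ℕ} {S C D E : Set α} (hD : Cl P k D) (h₁ : Conn P k S C D)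
    (h₂ : Conn P k S D E) : Conn P k S C E := fun F => by
  obtain ⟨l₁, hl₁⟩ := h₁ F
  obtain ⟨l₂, hl₂⟩ := h₂ (F ∪ l₁.toFinset)
  exact ⟨_, hl₁.append hD hl₂⟩

theorem Conn.mono {k : ℕ} {S S' C D : Set α} (h : Conn P k S C D) (hS : S ⊆ S') :
    Conn P k S' C D := fun F => by
  obtain ⟨l, hl⟩ := h F
  exact ⟨l, hl.mono le_rfl hS subset_rfl subset_rfl subset_rfl⟩

/-- a segment in `C` through `y` -/
theorem cl_seg {C S : Set α} {k : ℕ} (hC : Cl P k C) (hCS : C ⊆ S) (F : Finset α)
    (y : α) (hy : y ∈ C) (hyF : y ∉ F) : ∃ l, Seg P k S C C F l ∧ y ∈ l := by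
  classical
  have hinf : (C \ ((insert y F : Finset α) : Set α)).Infinite := hC.1.sdiff (Finset.finite_toSet _)
  obtain ⟨t, ht, htc⟩ := hinf.exists_subset_card_eq k
  have h1 : ∀ x ∈ y :: t.toList, x ∈ C := by
    intro x hx
    rcases List.mem_cons.1 hx with rfl | hx
    · exact hy
    · exact (ht (Finset.mem_toList.1 hx)).1
  have h2 : ∀ x ∈ y :: t.toList, x ∉ F := by
    intro x hx hxF
    rcases List.mem_cons.1 hx with rfl | hx
    · exact hyF hxF
    · exact (ht (Finset.mem_toList.1 hx)).2 (by simp [hxF])
  refine ⟨y :: t.toList, ⟨?_, ?_, fun x hx => hCS (h1 x hx), h2,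
    fun x hx => h1 x (List.mem_of_mem_take hx), fun x hx => h1 x (List.mem_of_mem_drop hx), ?_⟩, by simp⟩
  · rw [List.nodup_cons]
    refine ⟨fun hyt => ?_, Finset.nodup_toList _⟩
    have := (ht (Finset.mem_toList.1 hyt)).2
    exact this (by simp)
  · simp [htc]
  · intro s hs hne hlen
    refine hC.2 _ (by
      rw [Finset.nonempty_iff_ne_empty]
      exact fun h => hne (List.toFinset_eq_empty_iff s |>.1 h))
      ((List.toFinset_card_le s).trans hlen) ?_
    intro x hx
    exact h1 x (hs.subset (List.mem_toFinset.1 hx))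

theorem Conn.refl {k : ℕ} {S C : Set α} (hC : Cl P k C) (hCS : C ⊆ S) : Conn P k S C C := fun F => by
  obtain ⟨y, hy⟩ := (hC.1.sdiff F.finite_toSet).nonempty
  obtain ⟨l, hl, -⟩ := cl_seg hC hCS F y hy.1 (fun h => hy.2 h)
  exact ⟨l, hl⟩

end gen

section ord

variable {α : Type} [LinearOrder α] {P : Finset α → Prop}

/-- `W` is convex in `X` -/
def Conv (X W : Finset α) : Prop :=
  W ⊆ X ∧ ∀ y ∈ X, (∃ u ∈ W, u ≤ y) → (∃ v ∈ W, y ≤ v) → y ∈ W

theorem conv_infix {X : Finset α} {l s : List α} (hl : l.Pairwise (· < ·)) (hX : Conv X l.toFinset)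
    (hs : s <:+: l) : Conv X s.toFinset := by
  constructor
  · intro y hy
    exact hX.1 (List.mem_toFinset.2 (hs.subset (List.mem_toFinset.1 hy)))
  · rintro y hy ⟨u, hu, huy⟩ ⟨v, hv, hyv⟩
    rw [List.mem_toFinset] at hu hv ⊢
    have h1 : y ∈ l := List.mem_toFinset.1 (hX.2 y hy ⟨u, List.mem_toFinset.2 (hs.subset hu), huy⟩
      ⟨v, List.mem_toFinset.2 (hs.subset hv), hyv⟩)
    obtain ⟨a, b, rfl⟩ := hs
    rw [List.pairwise_append, List.pairwise_append] at hl
    obtain ⟨⟨-, -, h2⟩, -, h3⟩ := hl
    rcases List.mem_append.1 h1 with h | h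
    · rcases List.mem_append.1 h with h | h
      · exact absurd (h2 y h u hu) (not_lt.2 huy)
      · exact h
    · exact absurd (h3 v (List.mem_append_right _ hv) y h) (not_lt.2 hyv)

theorem seg_of_sorted {X W U V : Finset α}
    (hconv : ∀ s : Finset α, s.Nonempty → Conv X s → P s)
    (hW : Conv X W) {k : ℕ} (hUW : U ⊆ W) (hU : k ≤ U.card) (hUl : ∀ y ∈ W, y ∉ U → ∀ u ∈ U, u < y)
    (hV : k ≤ V.card) (hVW : V ⊆ W) (hVl : ∀ y ∈ W, y ∉ V → ∀ v ∈ V, y < v)
    {S C D : Set α} {F : Finset α} (hC : ∀ u ∈ U, u ∈ C) (hD : ∀ v ∈ V, v ∈ D) (hS : ∀ w ∈ W, w ∈ S)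
    (hF : ∀ w ∈ W, w ∉ F) : Seg P k S C D F (W.sort) := by
  classical
  set l := W.sort with hl
  have hlW : l.toFinset = W := by
    ext y; rw [List.mem_toFinset, hl, Finset.mem_sort]
  have hmem : ∀ y, y ∈ l ↔ y ∈ W := fun y => by rw [hl, Finset.mem_sort]
  have hpw : l.Pairwise (· < ·) := (Finset.sortedLT_sort W).pairwise
  have hlen : l.length = W.card := Finset.length_sort ..
  refine ⟨Finset.sort_nodup .., ?_, fun x hx => hS x ((hmem x).1 hx), fun x hx => hF x ((hmem x).1 hx),
    ?_, ?_, ?_⟩
  · rw [hlen]; exact hU.trans (Finset.card_le_card hUW)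
  · intro y hy
    obtain ⟨t, ht, hty⟩ := List.getElem_of_mem hy
    have htk : t < k := by
      rw [List.length_take] at ht; omega
    have htl : t < l.length := by
      rw [List.length_take] at ht; omega
    have hty' : l[t] = y := by rw [← hty, List.getElem_take]
    by_cases hyU : y ∈ U
    · exact hC y hyU
    · exfalso
      have h1 : U ⊆ (l.take t).toFinset := by
        intro u hu
        have hu1 : u < y := hUl y ((hmem y).1 (hty' ▸ List.getElem_mem htl)) hyU u hu
        obtain ⟨s, hs, hsu⟩ := List.getElem_of_mem ((hmem u).2 (hUW hu))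
        rw [List.mem_toFinset]
        have hst : s < t := by
          by_contra hcon
          rcases Nat.lt_or_eq_of_le (not_lt.1 hcon) with h | h
          · have := List.pairwise_iff_getElem.1 hpw t s htl hs h
            rw [hty', hsu] at this
            exact absurd hu1 (not_lt.2 this.le)
          · subst h
            rw [hty'] at hsu
            exact absurd hu1 (by rw [hsu]; exact lt_irrefl _)
        rw [← hsu]
        exact List.mem_take_iff_getElem.2 ⟨s, by omega, rfl⟩
      have h2 := (Finset.card_le_card h1).trans (List.toFinset_card_le _)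
      rw [List.length_take] at h2
      omega
  · intro y hy
    obtain ⟨t', ht', hty⟩ := List.getElem_of_mem hy
    rw [List.length_drop] at ht'
    rw [List.getElem_drop] at hty
    set t := l.length - k + t' with htdef
    have htl : t < l.length := by omega
    by_cases hyV : y ∈ V
    · exact hD y hyV
    · exfalso
      have h1 : V ⊆ (l.drop (t + 1)).toFinset := by
        intro v hv
        have hv1 : y < v := hVl y ((hmem y).1 (hty ▸ List.getElem_mem htl)) hyV v hv
        obtain ⟨s, hs, hsv⟩ := List.getElem_of_mem ((hmem v).2 (hVW hv))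
        rw [List.mem_toFinset]
        have hst : t < s := by
          by_contra hcon
          rcases Nat.lt_or_eq_of_le (not_lt.1 hcon) with h | h
          · have := List.pairwise_iff_getElem.1 hpw s t hs htl h
            rw [hty, hsv] at this
            exact absurd hv1 (not_lt.2 this.le)
          · subst h
            rw [hty] at hsv
            exact absurd hv1 (by rw [hsv]; exact lt_irrefl _)
        rw [← hsv]
        rw [List.mem_drop_iff_getElem]
        exact ⟨s - (t + 1), by omega, by congr 1; omega⟩
      have h2 := (Finset.card_le_card h1).trans (List.toFinset_card_le _)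
      rw [List.length_drop] at h2
      have := Finset.card_le_card hUW
      omega
  · intro s hs hne _
    refine hconv _ (by
      rw [Finset.nonempty_iff_ne_empty]
      exact fun h => hne (List.toFinset_eq_empty_iff s |>.1 h)) (conv_infix hpw ?_ hs)
    rw [hlW]; exact hW

end ord

end Pool.Agent.Run7.h783.RecSeq
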