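import Mathlib
import Pool.Agent.Run7.h783.RecSeq.Walk

set_option autoImplicit false

/-!
Translations of walks of real numbers.
-/

namespace Pool.Agent.Run7.h783.RecSeq

variable {P : Finset ℝ → Prop}

/-- the translate of `B` by `z` -/
def tr (B : Set ℝ) (z : ℝ) : Set ℝ := {x | x - z ∈ B}

theorem tr_zero (B : Set ℝ) : tr B 0 = B := by
  ext x; simp [tr]

theorem tr_tr (B : Set ℝ) (z w : ℝ) : tr (tr B z) w = tr B (z + w) := by
  ext x
  simp only [tr, Set.mem_ofPred_eq]
  rw [show x - w - z = x - (z + w) by ring]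

/-- invariance under translations -/
def TrInv (P : Finset ℝ → Prop) : Prop := ∀ (W : Finset ℝ) (z : ℝ), P W → P (W.image (· + z))

theorem Seg.translate {k : ℕ} {S C D : Set ℝ} {F : Finset ℝ} {l : List ℝ} (hP : TrInv P) (w : ℝ)
    (h : Seg P k S C D (F.image (· - w)) l) :
    Seg P k (tr S w) (tr C w) (tr D w) F (l.map (· + w)) where
  nodup := h.nodup.map (add_left_injective w)
  len := by rw [List.length_map]; exact h.len
  sub := fun x hx => by
    obtain ⟨y, hy, rfl⟩ := List.mem_map.1 hx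
    simpa [tr] using h.sub y hy
  av := fun x hx hxF => by
    obtain ⟨y, hy, rfl⟩ := List.mem_map.1 hx
    exact h.av y hy (Finset.mem_image.2 ⟨_, hxF, by ring⟩)
  head := fun x hx => by
    rw [← List.map_take] at hx
    obtain ⟨y, hy, rfl⟩ := List.mem_map.1 hx
    simpa [tr] using h.head y hy
  last := fun x hx => by
    rw [List.length_map, ← List.map_drop] at hx
    obtain ⟨y, hy, rfl⟩ := List.mem_map.1 hx
    simpa [tr] using h.last y hy
  win := fun s hs hne hlen => by
    obtain ⟨t, ht, rfl⟩ := List.infix_map_iff.1 hs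
    have h1 := hP _ w (h.win t ht (by simpa using hne) (by simpa using hlen))
    have h2 : (t.map (· + w)).toFinset = t.toFinset.image (· + w) := by
      ext x
      simp only [List.mem_toFinset, List.mem_map, Finset.mem_image]
    rwa [h2]

theorem Conn.translate {k : ℕ} {S C D : Set ℝ} (hP : TrInv P) (h : Conn P k S C D) (w : ℝ) :
    Conn P k (tr S w) (tr C w) (tr D w) := fun F => by
  obtain ⟨l, hl⟩ := h (F.image (· - w))
  exact ⟨_, hl.translate hP w⟩

theorem Cl.translate {k : ℕ} {C : Set ℝ} (hP : TrInv P) (h : Cl P k C) (w : ℝ) : Cl P k (tr C w) := by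
  constructor
  · have h1 : tr C w = (· + w) '' C := by
      ext x
      simp only [tr, Set.mem_ofPred_eq, Set.mem_image]
      constructor
      · intro hx
        exact ⟨_, hx, by ring⟩
      · rintro ⟨y, hy, rfl⟩
        simpa using hy
    rw [h1]
    exact h.1.image (add_left_injective w).injOn
  · intro W hW hWk hWC
    have h1 := hP _ w (h.2 (W.image (· - w)) (hW.image _) (Finset.card_image_le.trans hWk) (by
      intro x hx
      obtain ⟨y, hy, rfl⟩ := Finset.mem_image.1 hx
      exact hWC y hy))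
    have h2 : (W.image (· - w)).image (· + w) = W := by
      rw [Finset.image_image]
      simp [Function.comp_def]
    rwa [h2] at h1

theorem tr_subgroup (G : AddSubgroup ℝ) {z : ℝ} (hz : z ∈ G) : tr (G : Set ℝ) z = G := by
  ext x
  simp only [tr, Set.mem_ofPred_eq, SetLike.mem_coe]
  exact ⟨fun h => by simpa using G.add_mem h hz, fun h => G.sub_mem h hz⟩

/-- the subgroup of the `z` such that `B` and `B + z` are connected in the subgroup `G` -/
def TT (hP : TrInv P) (k : ℕ) (G : AddSubgroup ℝ) (B : Set ℝ) (hB : Cl P k B) (hBG : B ⊆ G) :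
    AddSubgroup ℝ where
  carrier := {z | z ∈ G ∧ Conn P k G B (tr B z)}
  zero_mem' := ⟨G.zero_mem, by rw [tr_zero]; exact Conn.refl hB hBG⟩
  add_mem' := by
    rintro z w ⟨hz, hz'⟩ ⟨hw, hw'⟩
    refine ⟨G.add_mem hz hw, ?_⟩
    have h1 := hw'.translate hP z
    rw [tr_subgroup G hz, tr_tr, add_comm w z] at h1
    exact Conn.trans (hB.translate hP z) hz' h1
  neg_mem' := by
    rintro z ⟨hz, hz'⟩
    refine ⟨G.neg_mem hz, ?_⟩
    have h1 := hz'.translate hP (-z)
    rw [tr_subgroup G (G.neg_mem hz), tr_tr, add_neg_cancel, tr_zero] at h1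
    exact h1.symm

theorem mem_TT {hP : TrInv P} {k : ℕ} {G : AddSubgroup ℝ} {B : Set ℝ} {hB : Cl P k B}
    {hBG : B ⊆ G} {z : ℝ} : z ∈ TT hP k G B hB hBG ↔ z ∈ G ∧ Conn P k G B (tr B z) := Iff.rfl

/-- loops through a given element -/
theorem loop (hP : TrInv P) (k : ℕ) (G : AddSubgroup ℝ) (B : Set ℝ) (hB : Cl P k B) (hBG : B ⊆ G)
    (hT : ∀ z ∈ G, Conn P k G B (tr B z)) (F : Finset ℝ) (y : ℝ) (hy : y ∈ G) (hyF : y ∉ F) :
    ∃ l, Seg P k G B B F l ∧ y ∈ l := by
  classical
  obtain ⟨b, hb⟩ := hB.1.nonempty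
  have hz : y - b ∈ G := G.sub_mem hy (hBG hb)
  obtain ⟨l₁, hl₁⟩ := hT _ hz (insert y F)
  have hD := hB.translate hP (y - b)
  have hyD : y ∈ tr B (y - b) := by simpa [tr] using hb
  have hDG : tr B (y - b) ⊆ G := by
    intro x hx
    have := G.add_mem (hBG hx) hz
    simpa using this
  have hl₁' := hl₁.mono le_rfl subset_rfl subset_rfl subset_rfl (Finset.subset_insert y F)
  have hyl₁ : y ∉ l₁ := fun h => hl₁.av y h (Finset.mem_insert_self _ _)
  obtain ⟨l₂, hl₂, hyl₂⟩ := cl_seg (S := G) hD hDG (F ∪ l₁.toFinset) y hyD (by simp [hyF, hyl₁])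
  have hl₁₂ := hl₁'.append hD hl₂
  obtain ⟨l₃, hl₃⟩ := (hT _ hz).symm (F ∪ (l₁ ++ l₂).toFinset)
  exact ⟨_, hl₁₂.append hD hl₃, by simp [hyl₂]⟩

end Pool.Agent.Run7.h783.RecSeq
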