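import Mathlib
import Pool.Agent.H672R3.InfRec
import Pool.Agent.Run7.h783.RecSeq.Tran

set_option autoImplicit false

/-!
Coloured exact limit patterns of consecutive primes at the record scale.
-/

namespace Pool.Agent.Run7.h783.RecSeq

open Finset Filter Topology
open Pool.Agent.H256R2.SC (ff t1 t2)
open Pool.Agent.H312R2.RG.C3 (ff_tendsto ff_lower ff_small ff_slow)
open Pool.Agent.H672R3.SimRec
open Pool.Agent.H672R3.InfRec (Lim scale_ev exists_min_pos)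
open Pool.Agent.H378R2 (yy)
open Pool.Agent.H362R2.RQ

/-- `N` consecutive primes of `(X, 4X]` in the class `a` modulo `q` with the pattern `g` at the scale `ff X` -/
def HG (q a : ℕ) {N : ℕ} (g : Fin N → ℝ) (δ X : ℝ) : Prop :=
  ∃ (n₀ : ℕ) (b : ℝ), ∀ i : Fin N, X < (Nat.nth Nat.Prime (n₀ + i) : ℝ) ∧
    (Nat.nth Nat.Prime (n₀ + i) : ℝ) ≤ 4 * X ∧ Nat.nth Nat.Prime (n₀ + i) ≡ a [MOD q] ∧
    |(Nat.nth Nat.Prime (n₀ + i) : ℝ) - b - ff X * g i| ≤ δ * ff X

theorem HG.mono {q a N : ℕ} {g : Fin N → ℝ} {δ δ' X : ℝ} (h : HG q a g δ' X) (hδ : δ' ≤ δ)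
    (hX : 0 ≤ ff X) : HG q a g δ X := by
  obtain ⟨n₀, b, h⟩ := h
  exact ⟨n₀, b, fun i => ⟨(h i).1, (h i).2.1, (h i).2.2.1,
    (h i).2.2.2.trans (mul_le_mul_of_nonneg_right hδ hX)⟩⟩

theorem lim_of_HG {q a N m : ℕ} (g : Fin N → ℝ) (s : ℕ) (hs : s + m < N)
    (h : ∀ δ : ℝ, 0 < δ → ∃ᶠ X : ℝ in atTop, HG q a g δ X) :
    (fun i : Fin m => g ⟨s + i + 1, by omega⟩ - g ⟨s + i, by omega⟩) ∈ Lim m q (fun _ => a) := by
  intro ε hε
  -- a bound for the values of `g`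
  obtain ⟨C, hC0, hC⟩ : ∃ C : ℝ, 0 ≤ C ∧ ∀ i, |g i| ≤ C := by
    refine ⟨∑ i, |g i|, Finset.sum_nonneg fun i _ => abs_nonneg _, fun i => ?_⟩
    exact Finset.single_le_sum (f := fun i => |g i|) (fun i _ => abs_nonneg _) (mem_univ i)
  set δ : ℝ := min 1 (ε / (8 * (C + 1))) with hδdef
  have hC1 : 0 < C + 1 := by linarith
  have hδ0 : 0 < δ := by positivity
  have hδ1 : δ ≤ 1 := min_le_left _ _
  have hδε : δ * (8 * (C + 1)) ≤ ε := by
    have := min_le_right 1 (ε / (8 * (C + 1)))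
    rw [← hδdef, le_div_iff₀ (by positivity)] at this
    exact this
  rw [Filter.frequently_atTop]
  intro N₀
  obtain ⟨X, hX, hXsl, hXN, hXf⟩ := ((h δ hδ0).and_eventually ((ff_slow δ hδ0).and
    ((eventually_ge_atTop ((Nat.nth Nat.Prime N₀ : ℕ) : ℝ)).and
    (ff_tendsto.eventually_gt_atTop 0)))).exists
  obtain ⟨n₀, b, hb⟩ := hX
  have hp : ∀ i : ℕ, ∀ hi : i < N, X < (Nat.nth Nat.Prime (n₀ + i) : ℝ) ∧
    (Nat.nth Nat.Prime (n₀ + i) : ℝ) ≤ 4 * X ∧ Nat.nth Nat.Prime (n₀ + i) ≡ a [MOD q] ∧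
    |(Nat.nth Nat.Prime (n₀ + i) : ℝ) - b - ff X * g ⟨i, hi⟩| ≤ δ * ff X := fun i hi => hb ⟨i, hi⟩
  refine ⟨n₀ + s, ?_, ?_, ?_⟩
  · have h1 := (hp s (by omega)).1
    by_contra hlt
    push Not at hlt
    have h2 : Nat.nth Nat.Prime (n₀ + s) < Nat.nth Nat.Prime N₀ :=
      Nat.nth_strictMono Nat.infinite_setOf_prime hlt
    have h3 : ((Nat.nth Nat.Prime (n₀ + s) : ℕ) : ℝ) < (Nat.nth Nat.Prime N₀ : ℕ) := by exact_mod_cast h2
    linarith
  · intro i
    have h1 := (hp (s + i) (by omega)).2.2.1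
    rwa [← add_assoc] at h1
  · intro i
    have h1 := hp (s + i) (by omega)
    have h2 := hp (s + i + 1) (by omega)
    have h0 := hp s (by omega)
    have e1 : n₀ + s + (i : ℕ) = n₀ + (s + i) := by ring
    have e2 : n₀ + s + (i : ℕ) + 1 = n₀ + (s + i + 1) := by ring
    rw [e1, show n₀ + (s + (i : ℕ)) + 1 = n₀ + (s + i + 1) by ring]
    have hsl := hXsl _ h0.1.le h0.2.1
    set p1 : ℝ := (Nat.nth Nat.Prime (n₀ + (s + i)) : ℝ) with hp1
    set p2 : ℝ := (Nat.nth Nat.Prime (n₀ + (s + i + 1)) : ℝ) with hp2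
    set g1 : ℝ := g ⟨s + i, by omega⟩ with hg1
    set g2 : ℝ := g ⟨s + i + 1, by omega⟩ with hg2
    set F : ℝ := ff X with hF
    set Q : ℝ := ff ((Nat.nth Nat.Prime (n₀ + s) : ℕ) : ℝ) with hQ
    have q1 : |(p2 - p1) / F - (g2 - g1)| ≤ 2 * δ := by
      have e3 : (p2 - p1) / F - (g2 - g1) = ((p2 - b - F * g2) - (p1 - b - F * g1)) / F := by
        field_simp
        ring
      rw [e3, abs_div, abs_of_pos hXf, div_le_iff₀ hXf]
      refine (abs_sub _ _).trans ?_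
      have := h1.2.2.2
      have := h2.2.2.2
      linarith
    have hg12 : |g2 - g1| ≤ 2 * C := by
      refine (abs_sub _ _).trans ?_
      have := hC ⟨s + i, by omega⟩
      have := hC ⟨s + i + 1, by omega⟩
      linarith
    have q2 : |(p2 - p1) / F| ≤ 2 * C + 2 * δ := by
      calc |(p2 - p1) / F| = |((p2 - p1) / F - (g2 - g1)) + (g2 - g1)| := by ring_nf
        _ ≤ |(p2 - p1) / F - (g2 - g1)| + |g2 - g1| := abs_add_le _ _
        _ ≤ _ := by linarith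
    have e4 : (p2 - p1) / Q - (g2 - g1) = ((p2 - p1) / F - (g2 - g1)) + ((p2 - p1) / F) * (F / Q - 1) := by
      by_cases hQ0 : Q = 0
      · exfalso
        rw [hQ0, div_zero, zero_sub, abs_neg, abs_one] at hsl
        linarith
      · field_simp
        ring
    rw [e4]
    calc |((p2 - p1) / F - (g2 - g1)) + ((p2 - p1) / F) * (F / Q - 1)|
        ≤ |(p2 - p1) / F - (g2 - g1)| + |((p2 - p1) / F) * (F / Q - 1)| := abs_add_le _ _
      _ = |(p2 - p1) / F - (g2 - g1)| + |(p2 - p1) / F| * |F / Q - 1| := by rw [abs_mul]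
      _ ≤ 2 * δ + (2 * C + 2 * δ) * δ := by
          apply add_le_add q1
          exact mul_le_mul q2 hsl.le (abs_nonneg _) (by positivity)
      _ < ε := by nlinarith

/-- coloured exact patterns for large `X` -/
theorem windowJ : ∃ η : ℝ, 0 < η ∧ ∀ M : ℕ, 1 ≤ M → ∃ K : ℕ, M ≤ K ∧ ∃ c : ℝ, 0 < c ∧
    ∀ δ : ℝ, 0 < δ → ∀ q : ℕ, Squarefree q → ∀ a : ℕ, a.Coprime q → ∀ᶠ X : ℝ in atTop,
    ∀ β : Fin K → ℝ, StrictMono β → (∀ j, 0 ≤ β j ∧ β j ≤ c) →
    ∀ col : Fin K → Fin M, (∀ d, K ≤ 2 * M * fib col d) →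
    ∃ J : Finset (Fin K), η * M ≤ (J.image col).card ∧
      HG q a (fun i : Fin J.card => β (J.orderEmbOfFin rfl i)) δ X := by
  classical
  obtain ⟨η, hη, hst⟩ := stRQ
  refine ⟨η, hη, fun M hM => ?_⟩
  obtain ⟨K, hMK, c0, hc0, hz⟩ := hst M hM
  refine ⟨K, hMK, c0 / 4, by positivity, ?_⟩
  intro δ hδ q hqsf a haq
  have hq0 : 0 < q := Nat.pos_of_ne_zero hqsf.ne_zero
  obtain ⟨X1, hX1⟩ := hz q
  set c : ℝ := c0 / 4 with hc
  have hc' : 0 < c := by positivity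
  set δ₁ : ℝ := min (δ / c) 1 / 8 with hδ₁
  have hδ₁0 : 0 < δ₁ := by rw [hδ₁]; positivity
  have hδ₁1 : δ₁ ≤ 1 / 8 := by
    rw [hδ₁]; have := min_le_right (δ / c) 1; linarith
  have hδ₁δ : δ₁ * c ≤ δ := by
    have h1 : δ₁ ≤ δ / c := by
      rw [hδ₁]
      have h2 := min_le_left (δ / c) 1
      have h3 : 0 < δ / c := by positivity
      linarith
    rwa [le_div_iff₀ hc'] at h1
  set ε : ℝ := δ₁ / (4 * (K + 1)) with hε
  have hKr : (0 : ℝ) < K + 1 := by positivity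
  have hε0 : 0 < ε := by positivity
  obtain ⟨Y0, hY0⟩ := eventually_atTop.1 (prime_all q hq0 ε hε0)
  filter_upwards [eventually_ge_atTop X1, Real.tendsto_log_atTop.eventually_ge_atTop (max Y0 1),
    ff_small c0 hc0, scale_ev c hc', eventually_gt_atTop (0 : ℝ), ff_tendsto.eventually_gt_atTop 0]
    with X hXX1 hlX hsm hsc hX0 hff0
  intro β hβ hβ01 col hcol
  set H : ℝ := c * ff X with hH
  have hlY : Y0 ≤ Real.log X := (le_max_left _ _).trans hlX
  have hl1 : 1 ≤ Real.log X := (le_max_right _ _).trans hlX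
  have hH1 : Real.log X ≤ H := hsc
  have hH0 : 1 ≤ H := hl1.trans hH1
  have hHpos : 0 < H := by linarith
  have hβ' : ∀ j, 0 ≤ β j / c ∧ β j / c ≤ 1 := fun j =>
    ⟨div_nonneg (hβ01 j).1 hc'.le, (div_le_one hc').2 (hβ01 j).2⟩
  -- the shifts
  set y : Fin K → ℝ := fun j => H * (1 + β j / c + δ₁ * (j : ℕ) / (K + 1)) with hy
  have hfrac : ∀ j : Fin K, 0 ≤ δ₁ * (j : ℕ) / (K + 1) ∧ δ₁ * (j : ℕ) / (K + 1) + δ₁ / (K + 1) ≤ δ₁ := by
    intro j
    refine ⟨by positivity, ?_⟩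
    rw [← add_div, div_le_iff₀ hKr]
    have : ((j : ℕ) : ℝ) + 1 ≤ K := by exact_mod_cast j.2
    nlinarith
  have hd0 : 0 < δ₁ / (K + 1) := by positivity
  have hyl : ∀ j, H ≤ y j := by
    intro j
    have h1 := (hβ' j).1
    have h2 := (hfrac j).1
    simp only [hy]
    nlinarith
  have hyu : ∀ j, y j ≤ 3 * H := by
    intro j
    have h1 := (hβ' j).2
    have h2 := (hfrac j).2
    simp only [hy]
    nlinarith
  have hex : ∀ j, ∃ p : ℕ, p.Prime ∧ p ≡ a [MOD q] ∧ y j < p ∧ (p : ℝ) ≤ (1 + ε) * y j :=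
    fun j => hY0 (y j) (by linarith [hyl j]) a haq
  choose t htp hta ht1 ht2 using hex
  have hεH : ∀ j, (t j : ℝ) ≤ y j + 3 / 4 * (δ₁ / (K + 1)) * H := by
    intro j
    have h1 := ht2 j
    have h2 : ε * y j ≤ ε * (3 * H) := mul_le_mul_of_nonneg_left (hyu j) hε0.le
    have h3 : ε * 4 = δ₁ / (K + 1) := by rw [hε]; field_simp
    have h4 : ε * (3 * H) = 3 / 4 * (δ₁ / (K + 1)) * H := by rw [← h3]; ring
    nlinarith
  have htmono : StrictMono t := by
    intro i j hij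
    have h1 : y i + δ₁ / (K + 1) * H ≤ y j := by
      have h2 : β i / c ≤ β j / c := div_le_div_of_nonneg_right (hβ hij).le hc'.le
      have h3 : ((i : ℕ) : ℝ) + 1 ≤ (j : ℕ) := by exact_mod_cast hij
      have h4 : δ₁ * (i : ℕ) / (K + 1) + δ₁ / (K + 1) ≤ δ₁ * (j : ℕ) / (K + 1) := by
        rw [← add_div]
        apply div_le_div_of_nonneg_right _ hKr.le
        nlinarith
      simp only [hy]
      nlinarith
    have h5 : (t i : ℝ) < t j := by
      have h6 := hεH i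
      have h7 := ht1 j
      have h8 : 0 < δ₁ / (K + 1) * H := mul_pos hd0 hHpos
      nlinarith
    exact_mod_cast h5
  have ht4 : ∀ j, (t j : ℝ) ≤ 4 * H := by
    intro j
    have h1 := hεH j
    have h2 := hyu j
    have h3 : δ₁ / (K + 1) ≤ 1 := by
      have := (hfrac j).2
      have := (hfrac j).1
      linarith
    nlinarith
  have htB : ∀ j, (t j : ℝ) ≤ c0 * ff X := by
    intro j
    have := ht4 j
    rw [hH, hc] at this
    linarith
  have hclose : ∀ j, |(t j : ℝ) - H * (1 + β j / c)| ≤ δ₁ * H := by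
    intro j
    have h1 := ht1 j
    have h2 := hεH j
    obtain ⟨h3, h4⟩ := hfrac j
    have h5 : y j = H * (1 + β j / c) + (δ₁ * (j : ℕ) / (K + 1)) * H := by simp only [hy]; ring
    rw [abs_le]
    constructor
    · have : 0 ≤ (δ₁ * (j : ℕ) / (K + 1)) * H := mul_nonneg h3 hHpos.le
      have : 0 ≤ δ₁ * H := by positivity
      linarith
    · have h6 : (δ₁ * (j : ℕ) / (K + 1)) * H + 3 / 4 * (δ₁ / (K + 1)) * H ≤ δ₁ * H := by
        have h7 : (δ₁ * (j : ℕ) / (K + 1)) + 3 / 4 * (δ₁ / (K + 1)) ≤ δ₁ := by linarith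
        nlinarith
      linarith
  obtain ⟨n, hn1, hn2, -, ⟨D, hD1, hD2⟩, hs, hzn⟩ := hX1 X hXX1 t htmono.injective
    (fun j => ⟨htp j, by
      have h1 : (yy X : ℝ) ≤ Real.log X / 1000 := Nat.floor_le (by positivity)
      have h2 : (yy X : ℝ) < t j := by
        have := ht1 j
        have := hyl j
        linarith
      exact_mod_cast h2, htB j⟩) col hcol ∅ (by
        rw [card_empty]; push_cast; exact Real.rpow_nonneg hX0.le _)
  have hqn : q ∣ n := dvd_of_primes q n hqsf (fun p hp hpq => hzn p hp (Nat.le_of_dvd hq0 hpq))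
  set J : Finset (Fin K) := (univ : Finset (Fin K)).filter (fun j => (n + t j).Prime) with hJ
  have hDJ : D ⊆ J.image col := by
    intro d hd
    obtain ⟨j, hj1, hj2⟩ := hD2 d hd
    exact mem_image.2 ⟨j, mem_filter.2 ⟨mem_univ _, hj2⟩, hj1⟩
  refine ⟨J, hD1.trans (by exact_mod_cast card_le_card hDJ), ?_⟩
  rcases Nat.eq_zero_or_pos J.card with hJ0 | hJ0
  · exact ⟨0, 0, fun i => absurd i.2 (by omega)⟩
  obtain ⟨m, hm⟩ : ∃ m, J.card = m + 1 := ⟨J.card - 1, by omega⟩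
  obtain ⟨j, hj, n₀, hnth⟩ := Pool.Agent.H312R2.RG.C3.consecutive t htmono n (c0 * ff X) htB
    (m := m) (by rw [← hJ, hm]) hs
  -- `j` is the enumeration of `J`
  have hjJ : ∀ i, j i ∈ J := by
    intro i
    refine mem_filter.2 ⟨mem_univ _, ?_⟩
    rw [← hnth i]
    exact Nat.nth_mem_of_infinite Nat.infinite_setOf_prime _
  have hje : ∀ i : Fin J.card, J.orderEmbOfFin rfl i = j (Fin.cast hm i) := by
    have h1 : (fun i : Fin J.card => j (Fin.cast hm i)) = J.orderEmbOfFin rfl :=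
      Finset.orderEmbOfFin_unique rfl (fun i => hjJ _) (fun x y hxy => hj (by simpa using hxy))
    intro i
    exact (congrFun h1 i).symm
  refine ⟨n₀, n + H, fun i => ?_⟩
  have hP : Nat.nth Nat.Prime (n₀ + i) = n + t (J.orderEmbOfFin rfl i) := by
    rw [hje i]
    have := hnth (Fin.cast hm i)
    simpa using this
  set u := J.orderEmbOfFin rfl i with hu
  rw [hP]
  refine ⟨?_, ?_, ?_, ?_⟩
  · push_cast
    have : (0 : ℝ) ≤ t u := Nat.cast_nonneg _
    linarith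
  · push_cast
    have := htB u
    linarith
  · have h1 : n + t u ≡ 0 + a [MOD q] := Nat.ModEq.add ((Nat.modEq_zero_iff_dvd).2 hqn) (hta u)
    simpa using h1
  · push_cast
    have e1 : (n : ℝ) + t u - (n + H) - ff X * β u = t u - H * (1 + β u / c) := by
      rw [hH]
      field_simp
      ring
    rw [e1]
    refine (hclose u).trans ?_
    rw [hH, ← mul_assoc]
    exact mul_le_mul_of_nonneg_right hδ₁δ hff0.le

/-- coloured exact limit patterns -/
theorem patJ : ∃ η : ℝ, 0 < η ∧ ∀ M : ℕ, 1 ≤ M → ∃ K : ℕ, M ≤ K ∧ ∃ c : ℝ, 0 < c ∧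
    ∀ q : ℕ, Squarefree q → ∀ a : ℕ, a.Coprime q →
    ∀ β : Fin K → ℝ, StrictMono β → (∀ j, 0 ≤ β j ∧ β j ≤ c) →
    ∀ col : Fin K → Fin M, (∀ d, K ≤ 2 * M * fib col d) →
    ∃ J : Finset (Fin K), η * M ≤ (J.image col).card ∧
      ∀ δ : ℝ, 0 < δ → ∃ᶠ X : ℝ in atTop, HG q a (fun i : Fin J.card => β (J.orderEmbOfFin rfl i)) δ X := by
  classical
  obtain ⟨η, hη, hw⟩ := windowJ
  refine ⟨η, hη, fun M hM => ?_⟩
  obtain ⟨K, hMK, c, hc, h⟩ := hw M hM
  refine ⟨K, hMK, c, hc, fun q hq a ha β hβ hβc col hcol => ?_⟩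
  by_contra hcon
  push Not at hcon
  have h1 : ∀ J : Finset (Fin K), ∃ δ : ℝ, 0 < δ ∧ (η * M ≤ ((J.image col).card : ℝ) →
      ∀ᶠ X : ℝ in atTop, ¬ HG q a (fun i : Fin J.card => β (J.orderEmbOfFin rfl i)) δ X) := by
    intro J
    by_cases hJ : η * M ≤ ((J.image col).card : ℝ)
    · obtain ⟨δ, hδ, h2⟩ := hcon J hJ
      exact ⟨δ, hδ, fun _ => by simpa using h2⟩
    · exact ⟨1, one_pos, fun h => absurd h hJ⟩
  choose δf hδf hev using h1
  obtain ⟨δ, hδ, hδle⟩ := exists_min_pos δf hδf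
  have hev2 : ∀ᶠ X : ℝ in atTop, ∀ J : Finset (Fin K), η * M ≤ ((J.image col).card : ℝ) →
      ¬ HG q a (fun i : Fin J.card => β (J.orderEmbOfFin rfl i)) (δf J) X := by
    rw [eventually_all]
    intro J
    by_cases hJ : η * M ≤ ((J.image col).card : ℝ)
    · filter_upwards [hev J hJ] with X hX _ using hX
    · exact Eventually.of_forall fun X h => absurd h hJ
  obtain ⟨X, hX1, hX2, hX3⟩ := ((h δ hδ q hq a ha).and (hev2.and (ff_tendsto.eventually_gt_atTop 0))).exists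
  obtain ⟨J, hJ1, hJ2⟩ := hX1 β hβ hβc col hcol
  exact hX2 J hJ1 (hJ2.mono (hδle J) hX3.le)

end Pool.Agent.Run7.h783.RecSeq
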