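import Mathlib
import Pool.Agent.Run7.h783.RecSeq.Hit

set_option autoImplicit false

/-!
Two of boundedly many translates of a sequence decreasing to `0` are connected by walks of limit patterns.
-/

namespace Pool.Agent.Run7.h783.RecSeq

open Finset Filter Topology
open Pool.Agent.H672R3.InfRec (Lim)
open Pool.Agent.H362R2.RQ (fib)

/-- the vector of the differences of the increasing enumeration of `W` is a limit point -/
def PL (q a : ℕ) (W : Finset ℝ) : Prop :=
  ∀ (m : ℕ) (y : Fin (m + 1) → ℝ), StrictMono y → Set.range y = (↑W : Set ℝ) →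
    (fun i : Fin m => y i.succ - y i.castSucc) ∈ Lim m q (fun _ => a)

theorem trInv (q a : ℕ) : TrInv (PL q a) := by
  intro W z hW m y hy hyW
  have h1 := hW m (fun i => y i - z) (fun i j hij => by
    have := hy hij
    simpa using this) (by
    ext x
    constructor
    · rintro ⟨i, rfl⟩
      have h2 : y i ∈ Set.range y := ⟨i, rfl⟩
      rw [hyW] at h2
      obtain ⟨w, hw, hwy⟩ := mem_image.1 (mem_coe.1 h2)
      have h3 : y i - z = w := by rw [← hwy]; ring
      show y i - z ∈ (↑W : Set ℝ)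
      rw [h3]
      exact hw
    · intro hx
      have h2 : x + z ∈ Set.range y := by
        rw [hyW]
        exact mem_coe.2 (mem_image_of_mem (· + z) (mem_coe.1 hx))
      obtain ⟨i, hi⟩ := h2
      exact ⟨i, by show y i - z = x; rw [hi]; ring⟩)
  have h2 : (fun i : Fin m => (y i.succ - z) - (y i.castSucc - z)) = fun i => y i.succ - y i.castSucc := by
    funext i; ring
  rw [h2] at h1
  exact h1

theorem pl_of_HG {q a N : ℕ} (g : Fin N → ℝ) (hg : StrictMono g)
    (h : ∀ δ : ℝ, 0 < δ → ∃ᶠ X : ℝ in atTop, HG q a g δ X) (W : Finset ℝ)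
    (hW : Conv (univ.image g) W) : PL q a W := by
  intro m y hy hyW
  have hyW' : ∀ i, y i ∈ W := fun i => by
    have h2 : y i ∈ Set.range y := ⟨i, rfl⟩
    rw [hyW] at h2
    exact mem_coe.1 h2
  have h1 : ∀ i, ∃ u : Fin N, g u = y i := fun i => by
    obtain ⟨u, -, hu⟩ := mem_image.1 (hW.1 (hyW' i))
    exact ⟨u, hu⟩
  choose u hu using h1
  have hum : StrictMono u := by
    intro i j hij
    rw [← hg.lt_iff_lt, hu, hu]
    exact hy hij
  have hstep : ∀ i : ℕ, ∀ hi : i + 1 < m + 1,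
      (u ⟨i + 1, hi⟩ : ℕ) = (u ⟨i, by omega⟩ : ℕ) + 1 := by
    intro i hi
    have h2 : u ⟨i, by omega⟩ < u ⟨i + 1, hi⟩ := hum (by simp [Fin.lt_def])
    by_contra hne
    have h3 : (u ⟨i, by omega⟩ : ℕ) + 1 < (u ⟨i + 1, hi⟩ : ℕ) := by
      have := Fin.lt_def.1 h2
      omega
    have hN : (u ⟨i, by omega⟩ : ℕ) + 1 < N := h3.trans (u ⟨i + 1, hi⟩).2
    have h4 : g ⟨(u ⟨i, by omega⟩ : ℕ) + 1, hN⟩ ∈ W := by
      refine hW.2 _ (mem_image_of_mem _ (mem_univ _)) ⟨_, hyW' ⟨i, by omega⟩, ?_⟩ ⟨_, hyW' ⟨i + 1, hi⟩, ?_⟩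
      · rw [← hu]
        exact (hg (Fin.lt_def.2 (Nat.lt_succ_self _))).le
      · rw [← hu]
        exact (hg (Fin.lt_def.2 h3)).le
    have h5 : g ⟨(u ⟨i, by omega⟩ : ℕ) + 1, hN⟩ ∈ Set.range y := by
      rw [hyW]; exact mem_coe.2 h4
    obtain ⟨l, hl⟩ := h5
    rw [← hu, hg.injective.eq_iff] at hl
    have h6 : u ⟨i, by omega⟩ < u l := by
      rw [hl]; exact Fin.lt_def.2 (Nat.lt_succ_self _)
    have h7 : u l < u ⟨i + 1, hi⟩ := by
      rw [hl]; exact Fin.lt_def.2 h3
    rw [hum.lt_iff_lt] at h6 h7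
    rw [Fin.lt_def] at h6 h7
    simp only at h6 h7
    omega
  have hadd : ∀ i : ℕ, ∀ hi : i < m + 1, (u ⟨i, hi⟩ : ℕ) = (u 0 : ℕ) + i := by
    intro i
    induction i with
    | zero => intro hi; simp
    | succ i ih =>
      intro hi
      rw [hstep i hi, ih (by omega)]
      ring
  have hs : (u 0 : ℕ) + m < N := by
    rw [← hadd m (Nat.lt_succ_self m)]
    exact (u ⟨m, _⟩).2
  have h2 := lim_of_HG g (u 0 : ℕ) hs h
  convert h2 using 1
  funext i
  have e1 : y i.succ = g ⟨(u 0 : ℕ) + i + 1, by omega⟩ := by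
    rw [← hu]
    have h9 : u i.succ = ⟨(u 0 : ℕ) + i + 1, by omega⟩ := Fin.ext (by
      have h8 := hadd (i + 1) (by omega)
      show (u i.succ : ℕ) = (u 0 : ℕ) + i + 1
      rw [show i.succ = ⟨(i : ℕ) + 1, by omega⟩ from rfl, h8]
      ring)
    rw [h9]
  have e2 : y i.castSucc = g ⟨(u 0 : ℕ) + i, by omega⟩ := by
    rw [← hu]
    have h9 : u i.castSucc = ⟨(u 0 : ℕ) + i, by omega⟩ := Fin.ext (by
      have h8 := hadd i (by omega)
      show (u i.castSucc : ℕ) = (u 0 : ℕ) + i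
      rw [show i.castSucc = ⟨(i : ℕ), by omega⟩ from rfl, h8])
    rw [h9]
  rw [e1, e2]

theorem two_of {L : ℕ} (h : Fin L → ℕ) (m k : ℕ) (hm : ∀ a, h a ≤ m) (hmk : L * k < m)
    (hs : 2 * m ≤ ∑ a, h a) : ∃ i j : Fin L, i < j ∧ k < h i ∧ k < h j := by
  classical
  by_contra hcon
  push Not at hcon
  have h1 : ∀ i j : Fin L, i ≠ j → k < h i → h j ≤ k := by
    intro i j hij hi
    rcases lt_or_gt_of_ne hij with hlt | hlt
    · exact hcon i j hlt hi
    · by_contra hj
      exact absurd (hcon j i hlt (not_le.1 hj)) (not_le.2 hi)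
  by_cases h2 : ∃ i, k < h i
  · obtain ⟨i, hi⟩ := h2
    have h3 : ∑ a, h a ≤ m + ∑ a ∈ univ.erase i, k := by
      rw [← Finset.add_sum_erase univ h (mem_univ i)]
      apply add_le_add (hm i)
      apply Finset.sum_le_sum
      intro j hj
      exact h1 i j (Finset.ne_of_mem_erase hj).symm hi
    rw [Finset.sum_const, smul_eq_mul, Finset.card_erase_of_mem (mem_univ i), card_univ, Fintype.card_fin] at h3
    have h4 : (L - 1) * k ≤ L * k := Nat.mul_le_mul_right k (Nat.sub_le L 1)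
    omega
  · push Not at h2
    have h3 : ∑ a, h a ≤ ∑ a : Fin L, k := Finset.sum_le_sum fun a _ => h2 a
    rw [Finset.sum_const, smul_eq_mul, card_univ, Fintype.card_fin] at h3
    omega

/-- the colour of an index: blocks of successive indices -/
def cblk (K M : ℕ) (hM : 0 < M) (j : Fin K) : Fin M :=
  ⟨min (j.1 / (K / M)) (M - 1), lt_of_le_of_lt (min_le_right _ _) (by omega)⟩

theorem cblk_mono (K M : ℕ) (hM : 0 < M) {i j : Fin K} (h : i ≤ j) : cblk K M hM i ≤ cblk K M hM j := by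
  rw [Fin.le_def]
  exact min_le_min_right _ (Nat.div_le_div_right (Fin.le_def.1 h))

theorem fib_cblk (K M : ℕ) (hM : 0 < M) (hMK : M ≤ K) (d : Fin M) : K ≤ 2 * M * fib (cblk K M hM) d := by
  classical
  have hpos : 0 < K / M := Nat.div_pos hMK hM
  have h1 : K / M ≤ fib (cblk K M hM) d := by
    unfold fib
    have hlt : ∀ v ∈ Finset.range (K / M), (d : ℕ) * (K / M) + v < K := by
      intro v hv
      rw [Finset.mem_range] at hv
      have h3 : ((d : ℕ) + 1) * (K / M) ≤ M * (K / M) := Nat.mul_le_mul_right _ d.2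
      have h4 : M * (K / M) ≤ K := Nat.mul_div_le K M
      rw [add_mul, one_mul] at h3
      omega
    have h2 : (Finset.range (K / M)).card ≤ (univ.filter (fun i : Fin K => cblk K M hM i = d)).card := by
      apply card_le_card_of_injOn (fun v => if h : (d : ℕ) * (K / M) + v < K then ⟨_, h⟩ else ⟨0, by omega⟩)
      · intro v hv
        have h3 := hlt v (mem_coe.1 hv)
        rw [mem_coe, mem_filter]
        refine ⟨mem_univ _, ?_⟩
        simp only [dif_pos h3]
        apply Fin.ext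
        show min (((d : ℕ) * (K / M) + v) / (K / M)) (M - 1) = d
        have h4 : ((d : ℕ) * (K / M) + v) / (K / M) = d := by
          rw [mul_comm, Nat.mul_add_div hpos, Nat.div_eq_of_lt (Finset.mem_range.1 (mem_coe.1 hv)), add_zero]
        rw [h4]
        have := d.2
        omega
      · intro v hv w hw hvw
        have h3 := hlt v (mem_coe.1 hv)
        have h4 := hlt w (mem_coe.1 hw)
        simp only [dif_pos h3, dif_pos h4] at hvw
        have := congrArg Fin.val hvw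
        simp only at this
        omega
    rwa [Finset.card_range] at h2
  have h5 : K < M * (K / M) + M := by
    have := Nat.lt_mul_div_succ K hM
    rw [mul_add, mul_one] at this
    exact this
  have h6 : M ≤ M * (K / M) := Nat.le_mul_of_pos_right M hpos
  have h7 : M * (K / M) ≤ M * fib (cblk K M hM) d := Nat.mul_le_mul_left M h1
  calc K ≤ 2 * (M * (K / M)) := by omega
    _ ≤ 2 * (M * fib (cblk K M hM) d) := Nat.mul_le_mul_left 2 h7
    _ = _ := by ring

theorem letters (q a : ℕ) (hq : Squarefree q) (ha : a.Coprime q) : ∃ L : ℕ, 2 ≤ L ∧ ∀ k : ℕ,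
    ∃ c : ℝ, 0 < c ∧ ∀ (G : AddSubgroup ℝ) (β : ℕ → ℝ), StrictAnti β → (∀ n, 0 < β n) →
    Tendsto β atTop (𝓝 0) → (∀ n, β n ∈ G) → ∀ z : Fin L → ℝ, StrictMono z → (∀ i, z i ∈ G) →
    (∀ i, 0 ≤ z i ∧ z i ≤ c) → ∀ F : Finset ℝ,
    ∃ i j : Fin L, i < j ∧ ∃ l, Seg (PL q a) k G (tr (Set.range β) (z i)) (tr (Set.range β) (z j)) F l := by
  classical
  obtain ⟨η, hη, hpat⟩ := patJ
  set L : ℕ := ⌈2 / η⌉₊ + 2 with hL
  have hL0 : 0 < L := by omega
  have hηL : 2 ≤ η * L := by
    have h1 := Nat.le_ceil (2 / η)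
    rw [div_le_iff₀ hη] at h1
    rw [hL]; push_cast
    nlinarith
  refine ⟨L, by omega, fun k => ?_⟩
  set m : ℕ := L * k + 1 with hm
  set M : ℕ := L * m with hMdef
  have hm0 : 0 < m := by omega
  have hM0 : 0 < M := Nat.mul_pos hL0 hm0
  obtain ⟨K, hMK, c, hc, hK⟩ := hpat M hM0
  refine ⟨c / 2, by positivity, ?_⟩
  intro G β hβ hβ0 ht hβG z hz hzG hzc F
  -- late indices
  obtain ⟨n₀, hn₀⟩ : ∃ n₀, ∀ n ≥ n₀, β n ≤ c / 2 ∧ (∀ i j : Fin L, i < j → β n < z j - z i) ∧
      ∀ i : Fin L, ∀ f ∈ F, β n + z i ≠ f := by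
    have e1 : ∀ᶠ n in atTop, β n ≤ c / 2 := by
      have := ht.eventually (gt_mem_nhds (show (0 : ℝ) < c / 2 by positivity))
      exact this.mono fun n hn => hn.le
    have e2 : ∀ᶠ n in atTop, ∀ i j : Fin L, i < j → β n < z j - z i := by
      rw [eventually_all]; intro i
      rw [eventually_all]; intro j
      by_cases hij : i < j
      · have h0 : 0 < z j - z i := by have := hz hij; linarith
        exact (ht.eventually (gt_mem_nhds h0)).mono fun n hn _ => hn
      · exact Eventually.of_forall fun n h => absurd h hij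
    have e3 : ∀ᶠ n in atTop, ∀ i : Fin L, ∀ f ∈ F, β n + z i ≠ f := by
      rw [eventually_all]; intro i
      rw [Filter.eventually_all_finset]
      intro f _
      by_cases h0 : 0 < f - z i
      · refine (ht.eventually (gt_mem_nhds h0)).mono fun n hn he => ?_
        linarith
      · exact Eventually.of_forall fun n he => by
          have := hβ0 n
          linarith
    obtain ⟨n₀, h⟩ := eventually_atTop.1 (e1.and (e2.and e3))
    exact ⟨n₀, h⟩
  -- colours and letters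
  set col : Fin K → Fin M := cblk K M hM0 with hcol
  have hlt : ∀ d : Fin M, d.1 / m < L := fun d => by
    rw [Nat.div_lt_iff_lt_mul hm0]; exact d.2
  set lc : Fin M → Fin L := fun d => ⟨d.1 / m, hlt d⟩ with hlc
  have hlcm : ∀ d d' : Fin M, d ≤ d' → lc d ≤ lc d' := fun d d' h =>
    Fin.le_def.2 (Nat.div_le_div_right (Fin.le_def.1 h))
  set lt : Fin K → Fin L := fun j => lc (col j) with hltd
  have hltm : ∀ i j : Fin K, i ≤ j → lt i ≤ lt j := fun i j h => hlcm _ _ (cblk_mono K M hM0 h)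
  set x : Fin K → ℝ := fun j => z (lt j) + β (n₀ + (K - j)) with hx
  have hxm : StrictMono x := by
    intro i j hij
    have h1 : lt i ≤ lt j := hltm i j hij.le
    rcases eq_or_lt_of_le h1 with h2 | h2
    · have h3 : β (n₀ + (K - i)) < β (n₀ + (K - j)) := by
        apply hβ
        have := Fin.lt_def.1 hij
        have := j.2
        omega
      simp only [hx, h2]
      linarith
    · have h3 := (hn₀ (n₀ + (K - i)) (by omega)).2.1 _ _ h2
      have h4 := hβ0 (n₀ + (K - j))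
      simp only [hx]
      linarith
  have hxc : ∀ j, 0 ≤ x j ∧ x j ≤ c := by
    intro j
    have h1 := hzc (lt j)
    have h2 := (hn₀ (n₀ + (K - j)) (by omega)).1
    have h3 := hβ0 (n₀ + (K - j))
    simp only [hx]
    constructor <;> linarith [h1.1, h1.2]
  obtain ⟨J, hJ1, hJ2⟩ := hK q hq a ha x hxm hxc col (fib_cblk K M hM0 hMK)
  set N := J.card with hN
  set g : Fin N → ℝ := fun i => x (J.orderEmbOfFin rfl i) with hg
  have hgm : StrictMono g := fun i j hij => hxm ((J.orderEmbOfFin rfl).strictMono hij)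
  set X : Finset ℝ := univ.image g with hX
  have hXJ : ∀ y, y ∈ X ↔ ∃ j ∈ J, x j = y := by
    intro y
    rw [hX, mem_image]
    constructor
    · rintro ⟨i, -, rfl⟩
      exact ⟨_, J.orderEmbOfFin_mem rfl i, rfl⟩
    · rintro ⟨j, hj, rfl⟩
      have : j ∈ Set.range (J.orderEmbOfFin rfl) := by
        rw [Finset.range_orderEmbOfFin]; exact mem_coe.2 hj
      obtain ⟨i, hi⟩ := this
      exact ⟨i, mem_univ _, by simp only [hg, hi]⟩
  have hPL : ∀ s : Finset ℝ, s.Nonempty → Conv X s → PL q a s := fun s _ hs => pl_of_HG g hgm hJ2 s hs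
  -- numbers of colours hit
  set Hc : Finset (Fin M) := J.image col with hHc
  have hsum : ∑ l, (Hc.filter (fun d => lc d = l)).card = Hc.card := by
    rw [← card_eq_sum_card_fiberwise (f := lc) (s := Hc) (t := univ) (fun _ _ => mem_coe.2 (mem_univ _))]
  have hfibm : ∀ l : Fin L, (Hc.filter (fun d => lc d = l)).card ≤ m := by
    intro l
    have h1 : (Hc.filter (fun d => lc d = l)).card ≤ (Ico (l.1 * m) (l.1 * m + m)).card := by
      apply card_le_card_of_injOn (fun d => d.1)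
      · intro d hd
        have h2 := (mem_filter.1 (mem_coe.1 hd)).2
        have h3 : d.1 / m = l.1 := congrArg Fin.val h2
        rw [Nat.div_eq_iff hm0] at h3
        rw [mem_coe, mem_Ico]
        show l.1 * m ≤ d.1 ∧ d.1 < l.1 * m + m
        constructor <;> omega
      · intro d _ d' _ h
        exact Fin.ext h
    rwa [Nat.card_Ico, Nat.add_sub_cancel_left] at h1
  have hHc2 : 2 * m ≤ Hc.card := by
    have h1 : (2 : ℝ) * m ≤ Hc.card := by
      calc (2 : ℝ) * m ≤ (η * L) * m := mul_le_mul_of_nonneg_right hηL (Nat.cast_nonneg m)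
        _ = η * M := by rw [hMdef]; push_cast; ring
        _ ≤ Hc.card := hJ1
    exact_mod_cast h1
  obtain ⟨i, j, hij, hi, hj⟩ := two_of (fun l => (Hc.filter (fun d => lc d = l)).card) m k hfibm
    (by omega) (by rw [hsum]; exact hHc2)
  -- elements with a given letter
  set Xa : Fin L → Finset ℝ := fun l => X.filter (fun y => ∃ u ∈ J, lt u = l ∧ y = x u) with hXa
  have hXacard : ∀ l, (Hc.filter (fun d => lc d = l)).card ≤ (Xa l).card := by
    intro l
    have h1 : Hc.filter (fun d => lc d = l) ⊆ (J.filter (fun u => lt u = l)).image col := by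
      intro d hd
      obtain ⟨hd1, hd2⟩ := mem_filter.1 hd
      obtain ⟨u, hu, hud⟩ := mem_image.1 hd1
      refine mem_image.2 ⟨u, mem_filter.2 ⟨hu, ?_⟩, hud⟩
      simp only [hltd, hud, hd2]
    have h2 : (J.filter (fun u => lt u = l)).card ≤ (Xa l).card := by
      apply card_le_card_of_injOn x
      · intro u hu
        obtain ⟨hu1, hu2⟩ := mem_filter.1 (mem_coe.1 hu)
        exact mem_coe.2 (mem_filter.2 ⟨(hXJ _).2 ⟨u, hu1, rfl⟩, u, hu1, hu2, rfl⟩)
      · exact hxm.injective.injOn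
    exact (card_le_card h1).trans (card_image_le.trans h2)
  have hlet : ∀ u v : Fin K, x u ≤ x v → lt u ≤ lt v := fun u v h => hltm u v (hxm.le_iff_le.1 h)
  set W : Finset ℝ := X.filter (fun y => (∃ u ∈ Xa i, u ≤ y) ∧ (∃ v ∈ Xa j, y ≤ v)) with hW
  have hWX : W ⊆ X := filter_subset _ _
  have hconvW : Conv X W := by
    refine ⟨hWX, ?_⟩
    rintro y hy ⟨u, hu, huy⟩ ⟨v, hv, hyv⟩
    obtain ⟨u', hu', huu⟩ := (mem_filter.1 hu).2.1
    obtain ⟨v', hv', hvv⟩ := (mem_filter.1 hv).2.2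
    exact mem_filter.2 ⟨hy, ⟨u', hu', huu.trans huy⟩, ⟨v', hv', hyv.trans hvv⟩⟩
  have hki := hi.trans_le (hXacard i)
  have hkj := hj.trans_le (hXacard j)
  have hne : ∀ l, k < (Xa l).card → (Xa l).Nonempty := fun l hl => card_pos.1 (by omega)
  have hcmp : ∀ u ∈ Xa i, ∀ v ∈ Xa j, u < v := by
    intro u hu v hv
    obtain ⟨s, -, hs, rfl⟩ := (mem_filter.1 hu).2
    obtain ⟨s', -, hs', rfl⟩ := (mem_filter.1 hv).2
    by_contra hcon
    have := hlet _ _ (not_lt.1 hcon)
    rw [hs, hs'] at this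
    exact absurd hij (not_lt.2 this)
  have hiW : Xa i ⊆ W := by
    intro u hu
    obtain ⟨v, hv⟩ := hne j hkj
    exact mem_filter.2 ⟨(mem_filter.1 hu).1, ⟨u, hu, le_rfl⟩, ⟨v, hv, (hcmp u hu v hv).le⟩⟩
  have hjW : Xa j ⊆ W := by
    intro v hv
    obtain ⟨u, hu⟩ := hne i hki
    exact mem_filter.2 ⟨(mem_filter.1 hv).1, ⟨u, hu, (hcmp u hu v hv).le⟩, ⟨v, hv, le_rfl⟩⟩
  have htr : ∀ u, x u ∈ tr (Set.range β) (z (lt u)) := by
    intro u
    refine ⟨n₀ + (K - u), ?_⟩
    simp only [hx]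
    ring
  refine ⟨i, j, hij, W.sort, seg_of_sorted hPL hconvW hiW hki.le
    ?_ hkj.le hjW ?_ ?_ ?_ ?_ ?_⟩
  · intro y hy hyU u hu
    obtain ⟨s, hsJ, rfl⟩ := (hXJ y).1 (hWX hy)
    obtain ⟨s', -, hs', rfl⟩ := (mem_filter.1 hu).2
    by_contra hcon
    have h1 := hlet _ _ (not_lt.1 hcon)
    obtain ⟨w, hw, hwy⟩ := (mem_filter.1 hy).2.1
    obtain ⟨s'', -, hs'', rfl⟩ := (mem_filter.1 hw).2
    have h2 := hlet _ _ hwy
    rw [hs'] at h1
    rw [hs''] at h2
    exact hyU (mem_filter.2 ⟨hWX hy, s, hsJ, le_antisymm h1 h2, rfl⟩)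
  · intro y hy hyV v hv
    obtain ⟨s, hsJ, rfl⟩ := (hXJ y).1 (hWX hy)
    obtain ⟨s', -, hs', rfl⟩ := (mem_filter.1 hv).2
    by_contra hcon
    have h1 := hlet _ _ (not_lt.1 hcon)
    obtain ⟨w, hw, hwy⟩ := (mem_filter.1 hy).2.2
    obtain ⟨s'', -, hs'', rfl⟩ := (mem_filter.1 hw).2
    have h2 := hlet _ _ hwy
    rw [hs'] at h1
    rw [hs''] at h2
    exact hyV (mem_filter.2 ⟨hWX hy, s, hsJ, le_antisymm h2 h1, rfl⟩)
  · intro u hu
    obtain ⟨s, -, hs, rfl⟩ := (mem_filter.1 hu).2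
    rw [← hs]
    exact htr s
  · intro v hv
    obtain ⟨s, -, hs, rfl⟩ := (mem_filter.1 hv).2
    rw [← hs]
    exact htr s
  · intro y hy
    obtain ⟨s, -, rfl⟩ := (hXJ y).1 (hWX hy)
    exact G.add_mem (hzG _) (hβG _)
  · intro y hy hyF
    obtain ⟨s, -, rfl⟩ := (hXJ y).1 (hWX hy)
    exact (hn₀ (n₀ + (K - s)) (by omega)).2.2 (lt s) _ hyF (by simp only [hx]; ring)

end Pool.Agent.Run7.h783.RecSeq
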