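import Mathlib
import Pool.Agent.Run7.h783.RecSeq.Lett
import Pool.Agent.Run7.h783.RecSeq.Seqn

set_option autoImplicit false

/-!
All elements of a countable divisible group of reals in one sequence with windows of limit patterns.
-/

namespace Pool.Agent.Run7.h783.RecSeq

open Finset Filter Topology
open Pool.Agent.H672R3.InfRec (Lim)

theorem conn_letters (q a : ℕ) (hq : Squarefree q) (ha : a.Coprime q) : ∃ L : ℕ, 2 ≤ L ∧ ∀ k : ℕ,
    ∃ c : ℝ, 0 < c ∧ ∀ (G : AddSubgroup ℝ) (β : ℕ → ℝ), StrictAnti β → (∀ n, 0 < β n) →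
    Tendsto β atTop (𝓝 0) → (∀ n, β n ∈ G) → ∀ z : Fin L → ℝ, StrictMono z → (∀ i, z i ∈ G) →
    (∀ i, 0 ≤ z i ∧ z i ≤ c) →
    ∃ i j : Fin L, i < j ∧ Conn (PL q a) k G (tr (Set.range β) (z i)) (tr (Set.range β) (z j)) := by
  classical
  obtain ⟨L, hL, h⟩ := letters q a hq ha
  refine ⟨L, hL, fun k => ?_⟩
  obtain ⟨c, hc, hk⟩ := h k
  refine ⟨c, hc, ?_⟩
  intro G β hβ hβ0 ht hβG z hz hzG hzc
  by_contra hcon
  push Not at hcon
  have h1 : ∀ i j : Fin L, ∃ F : Finset ℝ, i < j → ∀ l,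
      ¬ Seg (PL q a) k G (tr (Set.range β) (z i)) (tr (Set.range β) (z j)) F l := by
    intro i j
    by_cases hij : i < j
    · have h2 := hcon i j hij
      unfold Conn at h2
      push Not at h2
      obtain ⟨F, h3⟩ := h2
      exact ⟨F, fun _ => h3⟩
    · exact ⟨∅, fun h' => absurd h' hij⟩
  choose F hF using h1
  obtain ⟨i, j, hij, l, hl⟩ := hk G β hβ hβ0 ht hβG z hz hzG hzc
    (univ.biUnion fun p : Fin L × Fin L => F p.1 p.2)
  exact hF i j hij l (hl.mono le_rfl subset_rfl subset_rfl subset_rfl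
    (subset_biUnion_of_mem (fun p : Fin L × Fin L => F p.1 p.2) (mem_univ (i, j))))

/-- every element of `G` is a period -/
theorem all_conn (q a : ℕ) (hq : Squarefree q) (ha : a.Coprime q) (G : AddSubgroup ℝ)
    (hdiv : ∀ x ∈ G, ∀ n : ℕ, 0 < n → x / n ∈ G) (k : ℕ) (β : ℕ → ℝ) (hβ : StrictAnti β)
    (hβ0 : ∀ n, 0 < β n) (ht : Tendsto β atTop (𝓝 0)) (hβG : ∀ n, β n ∈ G)
    (hB : Cl (PL q a) k (Set.range β)) (z : ℝ) (hz : z ∈ G) :
    Conn (PL q a) k G (Set.range β) (tr (Set.range β) z) := by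
  have hBG : Set.range β ⊆ (G : Set ℝ) := by
    rintro _ ⟨n, rfl⟩
    exact hβG n
  set T := TT (trInv q a) k G (Set.range β) hB hBG with hT
  have key : ∀ z ∈ G, 0 < z → z ∈ T := by
    intro z hz hz0
    obtain ⟨L, hL, h⟩ := conn_letters q a hq ha
    obtain ⟨c, hc, hk⟩ := h k
    obtain ⟨N, hN⟩ := exists_nat_gt (z * L / c)
    have hN0 : 0 < N := by
      rcases Nat.eq_zero_or_pos N with h0 | h0
      · exfalso
        rw [h0] at hN
        have : 0 ≤ z * L / c := by positivity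
        simp only [Nat.cast_zero] at hN
        linarith
      · exact h0
    set Q : ℕ := L.factorial * N with hQ
    have hQ0 : 0 < Q := Nat.mul_pos (Nat.factorial_pos L) hN0
    have hQr : (0 : ℝ) < Q := by exact_mod_cast hQ0
    have hNQ : (N : ℝ) ≤ Q := by
      have : N ≤ Q := Nat.le_mul_of_pos_left N (Nat.factorial_pos L)
      exact_mod_cast this
    have hzL : z * L ≤ c * Q := by
      rw [div_lt_iff₀ hc] at hN
      nlinarith
    set w : Fin L → ℝ := fun i => z * (i : ℕ) / Q with hw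
    have hwm : StrictMono w := by
      intro i j hij
      have h1 : ((i : ℕ) : ℝ) < (j : ℕ) := by exact_mod_cast hij
      exact div_lt_div_of_pos_right (mul_lt_mul_of_pos_left h1 hz0) hQr
    have hwG : ∀ i, w i ∈ G := by
      intro i
      apply hdiv _ _ Q hQ0
      have h1 := G.nsmul_mem hz (i : ℕ)
      rwa [nsmul_eq_mul, mul_comm] at h1
    have hwc : ∀ i, 0 ≤ w i ∧ w i ≤ c := by
      intro i
      constructor
      · simp only [hw]
        positivity
      · simp only [hw]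
        rw [div_le_iff₀ hQr]
        have h1 : ((i : ℕ) : ℝ) ≤ L := by exact_mod_cast i.2.le
        nlinarith
    obtain ⟨i, j, hij, hconn⟩ := hk G β hβ hβ0 ht hβG w hwm hwG hwc
    have h1 := hconn.translate (trInv q a) (-w i)
    rw [tr_subgroup G (G.neg_mem (hwG i)), tr_tr, tr_tr, add_neg_cancel, tr_zero,
      ← sub_eq_add_neg] at h1
    have h2 : w j - w i ∈ T := mem_TT.2 ⟨G.sub_mem (hwG j) (hwG i), h1⟩
    have hlt : (i : ℕ) < j := Fin.lt_def.1 hij
    have hdvd : ((j : ℕ) - i) ∣ Q := by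
      refine Dvd.dvd.mul_right (Nat.dvd_factorial (by omega) ?_) N
      have := j.2
      omega
    obtain ⟨e, he⟩ := hdvd
    have h3 := T.nsmul_mem h2 e
    have h4 : e • (w j - w i) = z := by
      rw [nsmul_eq_mul]
      simp only [hw]
      have h5 : (Q : ℝ) = (((j : ℕ) : ℝ) - (i : ℕ)) * e := by
        rw [he]
        push_cast [Nat.cast_sub hlt.le]
        ring
      have h6 : (e : ℝ) * (z * (j : ℕ) / Q - z * (i : ℕ) / Q) = z * ((((j : ℕ) : ℝ) - (i : ℕ)) * e) / Q := by
        ring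
      rw [h6, ← h5]
      field_simp
    rwa [h4] at h3
  rcases lt_trichotomy z 0 with h0 | h0 | h0
  · have h1 := key (-z) (G.neg_mem hz) (by linarith)
    have h2 := T.neg_mem h1
    rw [neg_neg] at h2
    exact (mem_TT.1 h2).2
  · subst h0
    exact (mem_TT.1 T.zero_mem).2
  · exact (mem_TT.1 (key z hz h0)).2

/-- one sequence through all elements of `G` -/
theorem main_seq (q a : ℕ) (hq : Squarefree q) (ha : a.Coprime q) (G : AddSubgroup ℝ)
    (hcount : (G : Set ℝ).Countable) (hdiv : ∀ x ∈ G, ∀ n : ℕ, 0 < n → x / n ∈ G)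
    (hne : ∃ x ∈ G, x ≠ 0) :
    ∃ x : ℕ → ℝ, Function.Injective x ∧ Set.range x = (G : Set ℝ) ∧
      ∀ k : ℕ, 1 ≤ k → ∃ i₀ : ℕ, ∀ i ≥ i₀, PL q a ((Finset.range k).image fun j => x (i + j)) := by
  classical
  obtain ⟨g, hgG, hg0⟩ : ∃ g ∈ G, 0 < g := by
    obtain ⟨x, hx, hx0⟩ := hne
    rcases lt_or_gt_of_ne hx0 with h | h
    · exact ⟨-x, G.neg_mem hx, by linarith⟩
    · exact ⟨x, hx, h⟩
  set β₀ : ℕ → ℝ := fun n => g / ((n + 1 : ℕ) : ℝ) with hβ₀
  have hβ₀m : StrictAnti β₀ := by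
    intro i j hij
    have h1 : (((i + 1 : ℕ) : ℝ)) < ((j + 1 : ℕ) : ℝ) := by exact_mod_cast Nat.succ_lt_succ hij
    exact div_lt_div_of_pos_left hg0 (by positivity) h1
  have hβ₀0 : ∀ n, 0 < β₀ n := fun n => by simp only [hβ₀]; positivity
  have hβ₀t : Tendsto β₀ atTop (𝓝 0) := by
    have h1 : Tendsto (fun n : ℕ => ((n + 1 : ℕ) : ℝ)) atTop atTop :=
      tendsto_natCast_atTop_atTop.comp (tendsto_add_atTop_nat 1)
    exact h1.const_div_atTop g
  obtain ⟨φ, hφ, hsub⟩ := Pool.Agent.H672R3.InfRec.subsequence (fun _ => q) (fun _ => hq)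
    (fun _ => β₀) (fun _ => hβ₀m) (fun _ => hβ₀0) (fun _ => hβ₀t) (fun _ _ => a) (fun _ _ => ha)
  have hsub' := fun m => hsub 0 m
  choose N hN using hsub'
  set β : ℕ → ℝ := fun n => β₀ (φ n) with hβ
  have hβm : StrictAnti β := fun i j hij => hβ₀m (hφ hij)
  have hβ0 : ∀ n, 0 < β n := fun n => hβ₀0 _
  have hβt : Tendsto β atTop (𝓝 0) := hβ₀t.comp hφ.tendsto_atTop
  have hβG : ∀ n, β n ∈ G := fun n => hdiv g hgG _ (Nat.succ_pos _)
  set NN : ℕ → ℕ := fun k => ∑ m ∈ Finset.range k, N m with hNN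
  have hNNm : Monotone NN := fun k k' h => by
    apply Finset.sum_le_sum_of_subset
    exact Finset.range_mono h
  set βk : ℕ → ℕ → ℝ := fun k n => β (n + NN k) with hβk
  set B : ℕ → Set ℝ := fun k => Set.range (βk k) with hB
  have hBa : Antitone B := by
    intro k k' h
    rintro _ ⟨n, rfl⟩
    refine ⟨n + (NN k' - NN k), ?_⟩
    have := hNNm h
    simp only [hβk]
    congr 1
    omega
  have hBcl : ∀ k, Cl (PL q a) k (B k) := by
    intro k
    constructor
    · apply Set.infinite_range_of_injective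
      intro i j hij
      have := hβm.injective hij
      omega
    · intro W hW hWk hWB m y hy hyW
      have hcard : W.card = m + 1 := by
        have h1 : W = univ.image y := by
          ext w
          rw [← Finset.mem_coe, ← hyW, mem_image]
          constructor
          · rintro ⟨i, rfl⟩; exact ⟨i, mem_univ _, rfl⟩
          · rintro ⟨i, -, rfl⟩; exact ⟨i, rfl⟩
        rw [h1, card_image_of_injective _ hy.injective, card_univ, Fintype.card_fin]
      have h2 : ∀ r, ∃ i : ℕ, NN k ≤ i ∧ β i = y r := by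
        intro r
        have h3 : y r ∈ W := by
          rw [← Finset.mem_coe, ← hyW]; exact ⟨r, rfl⟩
        obtain ⟨n, hn⟩ := hWB _ h3
        exact ⟨n + NN k, by omega, hn⟩
      choose i hi1 hi2 using h2
      have hia : StrictAnti i := by
        intro r s hrs
        rw [← hβm.lt_iff_gt, hi2, hi2]
        exact hy hrs
      have hmk : m < k := by omega
      have h3 := hN m i hia (fun r => by
        have h4 : N m ≤ NN k := by
          simp only [hNN]
          exact Finset.single_le_sum (f := N) (fun _ _ => Nat.zero_le _) (Finset.mem_range.2 hmk)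
        exact h4.trans (hi1 r))
      have h4 : (fun r : Fin m => β₀ (φ (i r.succ)) - β₀ (φ (i r.castSucc))) =
          fun r : Fin m => y r.succ - y r.castSucc := by
        funext r
        rw [← hi2, ← hi2]
      rw [h4] at h3
      exact h3
  have hinf : (G : Set ℝ).Infinite := by
    refine (hBcl 0).1.mono ?_
    rintro _ ⟨n, rfl⟩
    exact hβG _
  obtain ⟨e, he⟩ := hcount.exists_eq_range hinf.nonempty
  refine exists_sequence (P := PL q a) (G : Set ℝ) hinf B hBcl hBa ?_ e he.symm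
  intro k F y hy hyF
  have hBG : B k ⊆ (G : Set ℝ) := by
    rintro _ ⟨n, rfl⟩
    exact hβG _
  refine loop (trInv q a) k G (B k) (hBcl k) hBG ?_ F y hy hyF
  intro z hz
  refine all_conn q a hq ha G hdiv k (βk k) ?_ (fun n => hβ0 _) ?_ (fun n => hβG _) (hBcl k) z hz
  · intro i j hij
    exact hβm (by omega)
  · exact hβt.comp (tendsto_add_atTop_nat (NN k))

/-- the final form -/
theorem final (q a : ℕ) (hq : Squarefree q) (ha : a.Coprime q) (G : AddSubgroup ℝ)
    (hcount : (G : Set ℝ).Countable) (hdiv : ∀ x ∈ G, ∀ n : ℕ, 0 < n → x / n ∈ G)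
    (hne : ∃ x ∈ G, x ≠ 0) :
    ∃ x : ℕ → ℝ, Function.Injective x ∧ Set.range x = (G : Set ℝ) ∧
      ∀ k : ℕ, ∃ i₀ : ℕ, ∀ i ≥ i₀, ∃ y : Fin (k + 1) → ℝ, StrictMono y ∧
        Set.range y = x '' Set.Icc i (i + k) ∧
        (fun r : Fin k => y r.succ - y r.castSucc) ∈ Lim k q (fun _ => a) := by
  classical
  obtain ⟨x, hx1, hx2, hx3⟩ := main_seq q a hq ha G hcount hdiv hne
  refine ⟨x, hx1, hx2, fun k => ?_⟩
  obtain ⟨i₀, hi₀⟩ := hx3 (k + 1) (by omega)
  refine ⟨i₀, fun i hi => ?_⟩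
  set W : Finset ℝ := (Finset.range (k + 1)).image fun j => x (i + j) with hW
  have hcard : W.card = k + 1 := by
    rw [hW, card_image_of_injective, Finset.card_range]
    intro j j' h
    have := hx1 h
    omega
  have hrange : Set.range (W.orderEmbOfFin hcard) = (↑W : Set ℝ) := Finset.range_orderEmbOfFin W hcard
  refine ⟨W.orderEmbOfFin hcard, (W.orderEmbOfFin hcard).strictMono, ?_, ?_⟩
  · rw [hrange]
    ext w
    rw [Finset.mem_coe, hW, mem_image]
    constructor
    · rintro ⟨j, hj, rfl⟩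
      rw [Finset.mem_range] at hj
      exact ⟨i + j, ⟨by omega, by omega⟩, rfl⟩
    · rintro ⟨l, ⟨hl1, hl2⟩, rfl⟩
      exact ⟨l - i, Finset.mem_range.2 (by omega), by congr 1; omega⟩
  · exact hi₀ i hi k _ (W.orderEmbOfFin hcard).strictMono hrange

end Pool.Agent.Run7.h783.RecSeq
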